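import Pool.Agent.Y836.VD.Stm

/-!
# Project VD: from the bodies to the lower bound for the constants
-/

set_option autoImplicit false
open MeasureTheory Set

namespace Pool.Agent.Y836.VD

open Pool.Agent.Results.MP_ad3614_gt.DifferenceUnbounded

/-- failure with room gives a lower bound for the constant -/
theorem lower_of_fails (n k : ℕ) (C g : ℝ) (hk : 1 ≤ k) (hkn : k < n) (hC : 0 < C) (hg : 0 ≤ g)
    (hgC : g ^ k ≤ C) (h : FailsK n k C) : ENNReal.ofReal g ≤ gammaConst n k := by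
  obtain ⟨K, L, hK, hL, hLK, B, hB, hlt⟩ := h
  unfold gammaConst
  refine le_iInf₂ fun γ hγ => ?_
  obtain ⟨hγ0, hH⟩ := hγ
  apply ENNReal.ofReal_le_ofReal
  by_contra hcon
  push Not at hcon
  have h1 := hH K L hK hL hLK
  have h2 : sSup (secDiffs (n - k) K L) ≤ B :=
    csSup_le (secDiffs_nonempty n (n - k) (by omega) K L) hB
  have hn0 : (0 : ℝ) < n := by
    have : 0 < n := by omega
    exact_mod_cast this
  have hkn' : (k : ℝ) ≤ n := by exact_mod_cast hkn.le
  have h3 : 0 ≤ vol K ^ (((n : ℝ) - k) / n) - vol L ^ (((n : ℝ) - k) / n) := by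
    have h4 : vol L ≤ vol K :=
      ENNReal.toReal_mono hK.1.measure_lt_top.ne (measure_mono hLK)
    have h6 : vol L ^ (((n : ℝ) - k) / n) ≤ vol K ^ (((n : ℝ) - k) / n) :=
      Real.rpow_le_rpow ENNReal.toReal_nonneg h4
        (div_nonneg (sub_nonneg.mpr hkn') hn0.le : 0 ≤ ((n : ℝ) - k) / n)
    linarith
  have hγk : 0 < γ ^ k := pow_pos hγ0 k
  have hlt2 : γ ^ k ≤ C := (pow_le_pow_left₀ hγ0.le hcon.le k).trans hgC
  set S := sSup (secDiffs (n - k) K L) with hS
  have hS0 : 0 ≤ S := by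
    by_contra hneg
    have := mul_neg_of_pos_of_neg hγk (not_le.mp hneg)
    linarith
  have h5 : γ ^ k * S ≤ C * B := mul_le_mul hlt2 h2 hS0 hC.le
  linarith

theorem log_ge_one (n : ℕ) (hn : 3 ≤ n) : 1 ≤ Real.log n := by
  have hn' : (3 : ℝ) ≤ n := by exact_mod_cast hn
  rw [Real.le_log_iff_exp_le (by linarith)]
  have := Real.exp_one_lt_d9
  linarith

theorem pow_le_two_pow (n k R : ℕ) (hn : 3 ≤ n) (hk : 1 ≤ k)
    (hR : 18 * (k : ℝ) * Real.log n * (R : ℝ) ^ 2 ≤ n) :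
    (2 * (((n ^ (k + 1) : ℕ)) : ℝ)) ^ (4 * R ^ 2) ≤ 2 ^ n := by
  have hn' : (3 : ℝ) ≤ n := by exact_mod_cast hn
  have hk' : (1 : ℝ) ≤ k := by exact_mod_cast hk
  have hL := log_ge_one n hn
  set L := Real.log n with hLdef
  have hn0 : (0 : ℝ) < n := by linarith
  have hx : (0 : ℝ) < 2 * ((n ^ (k + 1) : ℕ) : ℝ) := by positivity
  have h2 : Real.log (2 * ((n ^ (k + 1) : ℕ) : ℝ)) ≤ 3 * k * L := by
    push_cast
    rw [Real.log_mul (by norm_num) (by positivity), Real.log_pow, ← hLdef]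
    have h3 : Real.log 2 ≤ L := Real.log_le_log (by norm_num) (by linarith)
    push_cast
    nlinarith
  have h4 := Real.log_two_gt_d9
  calc (2 * (((n ^ (k + 1) : ℕ)) : ℝ)) ^ (4 * R ^ 2)
      = (Real.exp (Real.log (2 * ((n ^ (k + 1) : ℕ) : ℝ)))) ^ (4 * R ^ 2) := by
        rw [Real.exp_log hx]
    _ = Real.exp (((4 * R ^ 2 : ℕ) : ℝ) * Real.log (2 * ((n ^ (k + 1) : ℕ) : ℝ))) := by
        rw [← Real.exp_nat_mul]
    _ ≤ Real.exp (n * Real.log 2) := by
        apply Real.exp_le_exp.mpr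
        have h5 : ((4 * R ^ 2 : ℕ) : ℝ) * Real.log (2 * ((n ^ (k + 1) : ℕ) : ℝ)) ≤
            ((4 * R ^ 2 : ℕ) : ℝ) * (3 * k * L) := mul_le_mul_of_nonneg_left h2 (by positivity)
        refine h5.trans ?_
        push_cast
        nlinarith
    _ = 2 ^ n := by
        rw [Real.exp_nat_mul, Real.exp_log (by norm_num)]

theorem main_of (hF : S_FRAMEK) (hK : S_KEYK) : S_MAIN := by
  intro n k hn hk h18
  have hn' : (3 : ℝ) ≤ n := by exact_mod_cast hn
  have hk' : (1 : ℝ) ≤ k := by exact_mod_cast hk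
  have hL := log_ge_one n hn
  set L := Real.log n with hLdef
  have hn0 : (0 : ℝ) < n := by linarith
  have hk0 : (0 : ℝ) < k := by linarith
  have hL0 : 0 < L := by linarith
  set s := √L with hs
  have hss : s * s = L := Real.mul_self_sqrt hL0.le
  have hs0 : 0 < s := Real.sqrt_pos.mpr hL0
  set X := √((n : ℝ) / (18 * k * L)) with hX
  have hXX : X * X = (n : ℝ) / (18 * k * L) := Real.mul_self_sqrt (by positivity)
  have hX1 : 1 ≤ X := by
    rw [hX, Real.one_le_sqrt, le_div_iff₀ (by positivity)]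
    linarith
  have hX0 : 0 < X := by linarith
  obtain ⟨R, hRdef⟩ : ∃ R : ℕ, R = ⌊X⌋₊ := ⟨_, rfl⟩
  have hR1 : 1 ≤ R := by
    rw [hRdef, Nat.one_le_floor_iff]
    exact hX1
  have hR1' : (1 : ℝ) ≤ R := by exact_mod_cast hR1
  have hRX : (R : ℝ) ≤ X := by
    rw [hRdef]
    exact Nat.floor_le hX0.le
  have hXR : X ≤ 2 * R := by
    have := Nat.lt_floor_add_one X
    rw [← hRdef] at this
    linarith
  have hR0 : (0 : ℝ) < R := by linarith
  have hRR : 18 * (k : ℝ) * L * (R : ℝ) ^ 2 ≤ n := by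
    have h1 : (R : ℝ) ^ 2 ≤ X * X := by nlinarith
    rw [hXX, le_div_iff₀ (by positivity)] at h1
    linarith
  have hkL : (k : ℝ) ≤ k * L := by nlinarith
  have hR2 : R ^ 2 ≤ n := by
    have : ((R ^ 2 : ℕ) : ℝ) ≤ n := by
      push_cast
      nlinarith [sq_nonneg (R : ℝ)]
    exact_mod_cast this
  have hkn2 : 2 * k ≤ n := by
    have : ((2 * k : ℕ) : ℝ) ≤ n := by
      push_cast
      nlinarith
    exact_mod_cast this
  obtain ⟨θ, hθ, hsum⟩ := hF n k R hn hk (by omega) hR1 hR2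
  obtain ⟨ε, hε⟩ : ∃ ε : ℝ, ε = 7 * (9 * s / R) ^ k := ⟨_, rfl⟩
  obtain ⟨C, hC⟩ : ∃ C : ℝ, C = 1 / 113 * (R / (3672 * s)) ^ k := ⟨_, rfl⟩
  have hε0 : 0 < ε := by rw [hε]; positivity
  have hC0 : 0 < C := by rw [hC]; positivity
  have hprod : 16 * 408 ^ k * ε * C = 112 / 113 := by
    have h1 : (408 : ℝ) ^ k * (9 * s / R) ^ k * (R / (3672 * s)) ^ k = 1 := by
      rw [← mul_pow, ← mul_pow]
      have : 408 * (9 * s / R) * (R / (3672 * s)) = 1 := by
        field_simp; norm_num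
      rw [this, one_pow]
    calc 16 * 408 ^ k * ε * C =
        112 / 113 * ((408 : ℝ) ^ k * (9 * s / R) ^ k * (R / (3672 * s)) ^ k) := by
          rw [hε, hC]; ring
      _ = 112 / 113 := by rw [h1, mul_one]
  have hfails : FailsK n k C := by
    refine hK n k R (n ^ (k + 1)) ε C θ hk hkn2 hR1 (Nat.one_le_pow _ _ (by omega)) hε0 hC0 hθ
      (fun ν hν => ?_) (pow_le_two_pow n k R hn hk hRR) (by rw [hprod]; norm_num)
    refine (hsum ν hν).trans (le_of_eq ?_)
    rw [hε]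
    push_cast
    ring
  refine lower_of_fails n k C _ hk (by omega) hC0 (by positivity) ?_ hfails
  -- numerical comparison
  set Y := √((n : ℝ) / k) with hY
  have hYY : Y * Y = (n : ℝ) / k := Real.mul_self_sqrt (by positivity)
  have hY0 : 0 < Y := Real.sqrt_pos.mpr (by positivity)
  have hYX : Y * Y = 18 * (s * s) * (X * X) := by
    rw [hYY, hXX, hss]; field_simp
  have hY1 : Y ≤ 17 / 4 * s * X := by
    apply le_of_sq_le_sq _ (by positivity)
    have : 0 < s * X := by positivity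
    nlinarith
  have hY2 : Y ≤ 17 / 2 * s * R := by
    have : s * X ≤ s * (2 * R) := mul_le_mul_of_nonneg_left hXR hs0.le
    nlinarith
  have h1 : Y / (4000000 * L) ≤ 1 / 113 * (R / (3672 * s)) := by
    rw [← hss, mul_div_assoc', one_div_mul_eq_div, div_div, div_le_div_iff₀ (by positivity) (by positivity)]
    have h2 : Y * (113 * (3672 * s)) ≤ 17 / 2 * s * R * (113 * (3672 * s)) :=
      mul_le_mul_of_nonneg_right hY2 (by positivity)
    refine h2.trans ?_
    have : 0 < R * (s * s) := by positivity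
    nlinarith
  calc (Y / (4000000 * L)) ^ k ≤ (1 / 113 * (R / (3672 * s))) ^ k :=
        pow_le_pow_left₀ (by positivity) h1 k
    _ = (1 / 113) ^ k * (R / (3672 * s)) ^ k := mul_pow _ _ _
    _ ≤ (1 / 113) ^ 1 * (R / (3672 * s)) ^ k := by
        apply mul_le_mul_of_nonneg_right _ (by positivity)
        exact pow_le_pow_of_le_one (by norm_num) (by norm_num) hk
    _ = C := by rw [hC, pow_one]

end Pool.Agent.Y836.VD
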