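import Pool.Agent.Y836.VD.Stm

/-!
# Project VD: the bodies (codimension `k`)
-/

set_option autoImplicit false
open MeasureTheory Set

namespace Pool.Agent.Y836.VD

open Pool.Agent.Results.MP_ad3614_gt.DifferenceUnbounded

/-- iterated comparison of the constants `A` -/
theorem acst_iter (m b : ℕ) (k : ℕ) : 4 * (m + k + 1) ≤ b →
    ((m + k + 1).factorial : ℝ) / ((m + 1).factorial : ℝ) / (4 * √b) ^ k * Acst m b ≤
      Acst (m + k) b := by
  induction k with
  | zero =>
    intro _
    have : ((m + 1).factorial : ℝ) ≠ 0 := by positivity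
    simp [div_self this]
  | succ k ih =>
    intro hb'
    have h1 := ih (by omega)
    have h2 := Acst_comp (m + k) b (by omega)
    have hb0 : (0 : ℝ) < b := by
      have : 0 < b := by omega
      exact_mod_cast this
    have hsq : 0 < √(b : ℝ) := Real.sqrt_pos.mpr hb0
    refine le_trans ?_ h2
    have h3 := mul_le_mul_of_nonneg_left h1
      (show 0 ≤ (((m + k : ℕ) : ℝ) + 2) / (4 * √(b : ℝ)) by positivity)
    refine le_trans (le_of_eq ?_) h3
    have e : ((m + (k + 1) + 1).factorial : ℝ) = (((m + k : ℕ) : ℝ) + 2) * ((m + k + 1).factorial : ℝ) := by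
      rw [show m + (k + 1) + 1 = (m + k + 1) + 1 by ring, Nat.factorial_succ]
      push_cast
      ring
    rw [e, pow_succ]
    field_simp

/-- projection of a unit vector, codimension `k` -/
theorem proj_normk {n k : ℕ} (F : Submodule ℝ (EuclideanSpace ℝ (Fin n)))
    (ν : Fin k → EuclideanSpace ℝ (Fin n)) (hν : Orthonormal ℝ ν) (hν' : ∀ j, ν j ∈ Fᗮ)
    (θ : EuclideanSpace ℝ (Fin n)) (hθ : ‖θ‖ = 1) :
    ‖F.orthogonalProjectionOnto θ‖ ^ 2 ≤ 1 - ∑ j, (inner ℝ θ (ν j)) ^ 2 := by
  have h1 : ‖θ‖ ^ 2 = ‖F.orthogonalProjectionOnto θ‖ ^ 2 +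
      ‖θ - (F.orthogonalProjectionOnto θ : EuclideanSpace ℝ (Fin n))‖ ^ 2 := by
    have h2 : inner ℝ (F.orthogonalProjectionOnto θ : EuclideanSpace ℝ (Fin n))
        (θ - (F.orthogonalProjectionOnto θ : EuclideanSpace ℝ (Fin n))) = 0 := by
      apply Submodule.inner_right_of_mem_orthogonal (F.orthogonalProjectionOnto θ).2
      exact F.sub_starProjection_mem_orthogonal θ
    have h3 : θ = (F.orthogonalProjectionOnto θ : EuclideanSpace ℝ (Fin n)) +
      (θ - (F.orthogonalProjectionOnto θ : EuclideanSpace ℝ (Fin n))) := by abel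
    have h4 := norm_add_sq_real (F.orthogonalProjectionOnto θ : EuclideanSpace ℝ (Fin n))
      (θ - (F.orthogonalProjectionOnto θ : EuclideanSpace ℝ (Fin n)))
    rw [← h3, h2] at h4
    rw [h4]; simp
  have h5 : ∀ j, inner ℝ θ (ν j) =
      inner ℝ (ν j) (θ - (F.orthogonalProjectionOnto θ : EuclideanSpace ℝ (Fin n))) := by
    intro j
    rw [inner_sub_right, real_inner_comm, real_inner_comm
      (F.orthogonalProjectionOnto θ : EuclideanSpace ℝ (Fin n)) (ν j),
      Submodule.inner_right_of_mem_orthogonal (F.orthogonalProjectionOnto θ).2 (hν' j), sub_zero]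
  have h6 : ∑ j, (inner ℝ θ (ν j)) ^ 2 ≤
      ‖θ - (F.orthogonalProjectionOnto θ : EuclideanSpace ℝ (Fin n))‖ ^ 2 := by
    have h7 := hν.sum_inner_products_le
      (x := θ - (F.orthogonalProjectionOnto θ : EuclideanSpace ℝ (Fin n))) (s := Finset.univ)
    refine le_trans (le_of_eq (Finset.sum_congr rfl fun j _ => ?_)) h7
    rw [h5, Real.norm_eq_abs, sq_abs]
  rw [hθ] at h1
  linarith

theorem exists_frame {n k : ℕ} (F : Submodule ℝ (EuclideanSpace ℝ (Fin n))) (hk : k ≤ n)
    (hF : Module.finrank ℝ F = n - k) :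
    ∃ ν : Fin k → EuclideanSpace ℝ (Fin n), Orthonormal ℝ ν ∧ ∀ j, ν j ∈ Fᗮ := by
  have h1 : Module.finrank ℝ Fᗮ = k := by
    have := F.finrank_add_finrank_orthogonal
    rw [hF, finrank_euclideanSpace_fin] at this
    omega
  let bs := stdOrthonormalBasis ℝ Fᗮ
  refine ⟨fun j => (bs (Fin.cast h1.symm j) : EuclideanSpace ℝ (Fin n)), ?_, fun j => (bs _).2⟩
  have h2 : Orthonormal ℝ (fun i => ((bs i : Fᗮ) : EuclideanSpace ℝ (Fin n))) := by
    have := bs.orthonormal
    exact this.comp_linearIsometry Fᗮ.subtypeₗᵢ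
  exact h2.comp _ (Fin.cast_injective h1.symm)

end Pool.Agent.Y836.VD
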