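import Pool.Agent.Y836.VD.Key

/-!
# Project VD: the bodies (codimension `k`), main part
-/

set_option autoImplicit false
open MeasureTheory Set

namespace Pool.Agent.Y836.VD

open Pool.Agent.Results.MP_ad3614_gt.DifferenceUnbounded

theorem keyk (hball : S_BALL) : S_KEYK := by
  intro n k R N0 ε C θ hk hkn hR hN1 hε hC hθ hsum hpow hCε
  obtain ⟨k', rfl⟩ : ∃ k', k = k' + 1 := ⟨k - 1, by omega⟩
  obtain ⟨m, hm⟩ : ∃ m, n = m + k' + 2 := ⟨n - k' - 2, by omega⟩
  obtain ⟨g, g3, g5, glo, gup, gcone, gvol⟩ := body0 n N0 R (by omega) hN1 hR θ hθ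
  have hR0 : (0 : ℝ) < R := by exact_mod_cast hR
  have hR1 : (1 : ℝ) ≤ R := by exact_mod_cast hR
  have hn0 : (0 : ℝ) < n := by
    have : 0 < n := by omega
    exact_mod_cast this
  have hfin : Module.finrank ℝ (EuclideanSpace ℝ (Fin n)) = m + k' + 2 := by
    rw [finrank_euclideanSpace_fin, hm]
  obtain ⟨b, hbd⟩ : ∃ b, b = 8 * n * R ^ 2 := ⟨_, rfl⟩
  rw [← hbd] at hsum
  obtain ⟨Nr, hNd⟩ : ∃ Nr : ℝ, Nr = (N0 : ℝ) := ⟨_, rfl⟩
  have hN0 : (0 : ℝ) < Nr := by
    rw [hNd]
    have : 0 < N0 := hN1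
    exact_mod_cast this
  have hb0 : (0 : ℝ) ≤ b := Nat.cast_nonneg _
  obtain ⟨t, ht⟩ : ∃ t : ℝ, t = 1 / (2 * (n + 1) * R * Nr * (2 * b + 1)) := ⟨_, rfl⟩
  have ht0 : 0 < t := by rw [ht]; positivity
  have hHnn : ∀ x, 0 ≤ ∑ i, hb b (θ i) x := fun x =>
    Finset.sum_nonneg fun i _ => hb_nonneg b (θ i) x
  have hHle : ∀ x, ∑ i, hb b (θ i) x ≤ Nr * ‖x‖ := by
    intro x
    calc ∑ i, hb b (θ i) x ≤ ∑ i : Fin N0, ‖x‖ :=
          Finset.sum_le_sum fun i _ => hb_le b (θ i) x (hθ i)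
      _ = Nr * ‖x‖ := by simp [hNd]
  -- the two norms
  let nK : EuclideanSpace ℝ (Fin n) → ℝ := fun x => g x + t * Nr * (2 * b) * ‖x‖
  let nL : EuclideanSpace ℝ (Fin n) → ℝ := fun x => nK x + t * ∑ i, hb b (θ i) x
  have hc0 : 0 ≤ t * Nr * (2 * b) := by positivity
  have K3 : ∀ x y, nK (x + y) ≤ nK x + nK y := by
    intro x y
    have h1 := g3 x y
    have h2 := mul_le_mul_of_nonneg_left (norm_add_le x y) hc0
    simp only [nK]
    linarith
  have K5 : ∀ (r : ℝ) x, nK (r • x) = |r| * nK x := by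
    intro r x
    simp only [nK, g5, norm_smul, Real.norm_eq_abs]; ring
  have Lalt : ∀ x, nL x = g x + t * ∑ i, (hb b (θ i) x + 2 * b * ‖x‖) := by
    intro x
    simp only [nL, nK, Finset.sum_add_distrib, Finset.sum_const, Finset.card_univ,
      Fintype.card_fin, nsmul_eq_mul, hNd]
    ring
  have L3 : ∀ x y, nL (x + y) ≤ nL x + nL y := by
    intro x y
    rw [Lalt, Lalt, Lalt]
    have h1 := g3 x y
    have h2 : ∑ i, (hb b (θ i) (x + y) + 2 * b * ‖x + y‖) ≤
        ∑ i, (hb b (θ i) x + 2 * b * ‖x‖) + ∑ i, (hb b (θ i) y + 2 * b * ‖y‖) := by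
      rw [← Finset.sum_add_distrib]
      exact Finset.sum_le_sum fun i _ => hb_sub b (θ i) (hθ i) x y
    have h3 := mul_le_mul_of_nonneg_left h2 ht0.le
    linarith
  have L5 : ∀ (r : ℝ) x, nL (r • x) = |r| * nL x := by
    intro r x
    have h1 : ∑ i, hb b (θ i) (r • x) = |r| * ∑ i, hb b (θ i) x := by
      rw [Finset.mul_sum]
      exact Finset.sum_congr rfl fun i _ => hb_smul b (θ i) x r
    simp only [nL]
    rw [K5, h1]; ring
  have Klo : ∀ x, ‖x‖ / R ≤ nK x := by
    intro x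
    have h1 := glo x
    have h2 := mul_nonneg hc0 (norm_nonneg x)
    simp only [nK]; linarith
  have KL : ∀ x, nK x ≤ nL x := by
    intro x
    have := mul_nonneg ht0.le (hHnn x)
    simp only [nL]; linarith
  have Kup : ∀ x, nK x ≤ (1 + t * Nr * (2 * b)) * ‖x‖ := by
    intro x
    have h1 := gup x
    simp only [nK]; linarith
  have Lup : ∀ x, nL x ≤ (1 + t * Nr * (2 * b) + t * Nr) * ‖x‖ := by
    intro x
    have h1 := Kup x
    have h2 := mul_le_mul_of_nonneg_left (hHle x) ht0.le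
    simp only [nL]; linarith
  have hgc : Continuous g := (symmBody_of_norm g (R : ℝ)⁻¹ 1 (inv_pos.mpr hR0) g3 g5
    (fun x => by rw [← div_eq_inv_mul]; exact glo x) (fun x => by rw [one_mul]; exact gup x)).1
  obtain ⟨hKc, hKb⟩ := symmBody_of_norm nK (R : ℝ)⁻¹ _ (inv_pos.mpr hR0) K3 K5
    (fun x => by rw [← div_eq_inv_mul]; exact Klo x) Kup
  obtain ⟨hLc, hLb⟩ := symmBody_of_norm nL (R : ℝ)⁻¹ _ (inv_pos.mpr hR0) L3 L5
    (fun x => by rw [← div_eq_inv_mul]; exact (Klo x).trans (KL x)) Lup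
  have hA0 := Acst_pos m b
  have hA1 := Acst_pos (m + k' + 1) b
  rw [← hNd] at hsum hpow
  refine ⟨{x | nK x ≤ 1}, {x | nL x ≤ 1}, hKb, hLb,
    fun x hx => (KL x).trans hx,
    (t * (R : ℝ) ^ (m + 2) * Acst m b * (ε * Nr)) / (Nat.factorial (m + 1) : ℝ),
    ?_, ?_⟩
  · -- sections
    rintro _ ⟨F, hF, rfl⟩
    have hF1 : Module.finrank ℝ F = m + 1 := by omega
    have : Nontrivial F := Module.nontrivial_of_finrank_pos (R := ℝ) (by omega)
    obtain ⟨ν, hν1, hν2⟩ := exists_frame F (by omega) hF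
    have h4K : ∀ x : EuclideanSpace ℝ (Fin n), nK x = 0 → x = 0 := by
      intro x hx
      have h1 := Klo x
      rw [hx, div_le_iff₀ hR0, zero_mul] at h1
      exact norm_le_zero_iff.mp h1
    have h4L : ∀ x : EuclideanSpace ℝ (Fin n), nL x = 0 → x = 0 := by
      intro x hx
      have h1 := (Klo x).trans (KL x)
      rw [hx, div_le_iff₀ hR0, zero_mul] at h1
      exact norm_le_zero_iff.mp h1
    have vK := volform (E := F) (fun x => nK x) (fun x y => by simpa using K3 x y)
      (fun r x => by simpa using K5 r x) (fun x hx => by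
        have := h4K x hx; exact_mod_cast this)
    have vL := volform (E := F) (fun x => nL x) (fun x y => by simpa using L3 x y)
      (fun r x => by simpa using L5 r x) (fun x hx => by
        have := h4L x hx; exact_mod_cast this)
    have hwi : ∀ (i : Fin N0) (x : F), hb b (F.orthogonalProjectionOnto (θ i)) x =
        hb b (θ i) (x : EuclideanSpace ℝ (Fin n)) := by
      intro i x
      have h1 : (inner ℝ x (F.orthogonalProjectionOnto (θ i)) : ℝ) =
          inner ℝ (x : EuclideanSpace ℝ (Fin n)) (θ i) := by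
        rw [Submodule.coe_inner]
        have h2 : inner ℝ (x : EuclideanSpace ℝ (Fin n))
          (θ i - (F.orthogonalProjectionOnto (θ i) : EuclideanSpace ℝ (Fin n))) = 0 :=
          Submodule.inner_right_of_mem_orthogonal x.2 (F.sub_starProjection_mem_orthogonal (θ i))
        rw [inner_sub_right] at h2
        linarith
      unfold hb
      rw [h1, Submodule.coe_norm]
    have hsec := secbound (E := F) m b hF1 (fun x => nK x) R t hR0 ht0.le
      (fun i => F.orthogonalProjectionOnto (θ i)) (fun x => Klo x)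
      (hKc.comp continuous_subtype_val)
    have hsumF : ∑ i, ‖F.orthogonalProjectionOnto (θ i)‖ ^ (2 * b + 1) ≤
        ε * Nr := by
      refine le_trans (Finset.sum_le_sum fun i _ => ?_) (hsum ν hν1)
      have h1 := proj_normk F ν hν1 hν2 (θ i) (hθ i)
      have h2 : ‖F.orthogonalProjectionOnto (θ i)‖ ≤ 1 := by
        have h3 : ‖F.orthogonalProjectionOnto (θ i)‖ ^ 2 ≤ 1 := by
          have : 0 ≤ ∑ j, (inner ℝ (θ i) (ν j)) ^ 2 := Finset.sum_nonneg fun j _ => sq_nonneg _
          linarith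
        exact (sq_le_one_iff₀ (norm_nonneg _)).mp h3
      calc ‖F.orthogonalProjectionOnto (θ i)‖ ^ (2 * b + 1)
          = (‖F.orthogonalProjectionOnto (θ i)‖ ^ 2) ^ b *
            ‖F.orthogonalProjectionOnto (θ i)‖ := by rw [← pow_mul, pow_succ]
        _ ≤ (1 - ∑ j, (inner ℝ (θ i) (ν j)) ^ 2) ^ b * 1 := by
            apply mul_le_mul (pow_le_pow_left₀ (by positivity) h1 b) h2 (norm_nonneg _)
            apply pow_nonneg
            exact le_trans (by positivity) h1
        _ = (1 - ∑ j, (inner ℝ (θ i) (ν j)) ^ 2) ^ b := mul_one _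
    have eK : sec {x | nK x ≤ 1} F = (∫ x : F, Real.exp (-(nK x))) / ((m + 1).factorial : ℝ) := by
      rw [← hF1, ← vK]; rfl
    have eL : sec {x | nL x ≤ 1} F = (∫ x : F, Real.exp (-(nL x))) / ((m + 1).factorial : ℝ) := by
      rw [← hF1, ← vL]; rfl
    rw [eK, eL, ← sub_div]
    apply div_le_div_of_nonneg_right _ (by positivity)
    have e3 : (∫ x : F, Real.exp (-(nL x))) =
        ∫ x : F, Real.exp (-(nK x + t * ∑ i, hb b (F.orthogonalProjectionOnto (θ i)) x)) := by
      apply integral_congr_ae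
      refine Filter.Eventually.of_forall fun x => ?_
      simp only [nL, hwi]
    rw [e3]
    refine hsec.trans ?_
    apply mul_le_mul_of_nonneg_left hsumF
    positivity
  · -- volumes
    have : Nontrivial (EuclideanSpace ℝ (Fin n)) :=
      Module.nontrivial_of_finrank_pos (R := ℝ) (by omega)
    have h4K : ∀ x : EuclideanSpace ℝ (Fin n), nK x = 0 → x = 0 := by
      intro x hx
      have h1 := Klo x
      rw [hx, div_le_iff₀ hR0, zero_mul] at h1
      exact norm_le_zero_iff.mp h1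
    have h4L : ∀ x : EuclideanSpace ℝ (Fin n), nL x = 0 → x = 0 := by
      intro x hx
      have h1 := (Klo x).trans (KL x)
      rw [hx, div_le_iff₀ hR0, zero_mul] at h1
      exact norm_le_zero_iff.mp h1
    have vK := volform nK K3 K5 h4K
    have vL := volform nL L3 L5 h4L
    have hvb := volbound (E := EuclideanSpace ℝ (Fin n)) (m + k') b N0 R hfin g t hR ht0
      (by rw [hbd, hm]) θ hθ glo hgc gcone
    rw [← hNd] at hvb
    -- D₀
    have hfac : ((Nat.factorial (Module.finrank ℝ (EuclideanSpace ℝ (Fin n))) : ℕ) : ℝ) =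
        (Nat.factorial (m + k' + 2) : ℝ) := by
      rw [hfin]
    have hfp : (0 : ℝ) < (Nat.factorial (m + 1) : ℝ) := by positivity
    have hfq : (0 : ℝ) < (Nat.factorial (m + k' + 2) : ℝ) := by positivity
    have hD : t * Nr * ((1 / (R : ℝ) + t * Nr * (2 * b + 1))⁻¹) ^ (m + k' + 3) *
        (1 / 4 * Acst (m + k' + 1) b) / (Nat.factorial (m + k' + 2) : ℝ) ≤
        vol {x | nK x ≤ 1} - vol {x | nL x ≤ 1} := by
      unfold vol
      rw [vK, vL, ← sub_div, hfac]
      apply div_le_div_of_nonneg_right _ (by positivity)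
      exact hvb
    -- the factor
    have hs1 : (R : ℝ) ^ (m + k' + 3) / 2 ≤
        ((1 / (R : ℝ) + t * Nr * (2 * b + 1))⁻¹) ^ (m + k' + 3) := by
      have e1 : 1 / (R : ℝ) + t * Nr * (2 * b + 1) = (1 + 1 / (2 * ((n : ℝ) + 1))) / R := by
        rw [ht]; field_simp
      have e2 : (m : ℝ) + k' + 3 = (n : ℝ) + 1 := by rw [hm]; push_cast; ring
      have e3 : (1 + 1 / (2 * ((n : ℝ) + 1))) ^ (m + k' + 3) ≤ 2 := by
        have h1 : (1 : ℝ) + 1 / (2 * ((n : ℝ) + 1)) ≤ Real.exp (1 / (2 * ((n : ℝ) + 1))) := by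
          have := Real.add_one_le_exp (1 / (2 * ((n : ℝ) + 1)))
          linarith
        calc (1 + 1 / (2 * ((n : ℝ) + 1))) ^ (m + k' + 3)
            ≤ (Real.exp (1 / (2 * ((n : ℝ) + 1)))) ^ (m + k' + 3) :=
              pow_le_pow_left₀ (by positivity) h1 _
          _ = Real.exp (1 / 2) := by
              rw [← Real.exp_nat_mul]
              congr 1
              push_cast
              rw [e2]; field_simp
          _ ≤ 2 := by
              have h2 : Real.exp (1 / 2) ^ 2 = Real.exp 1 := by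
                rw [← Real.exp_nat_mul]; congr 1; norm_num
              have h3 := Real.exp_one_lt_d9
              have h4 := Real.exp_pos (1 / 2)
              nlinarith
      rw [e1, inv_div, div_pow]
      rw [div_le_div_iff₀ (by norm_num) (by positivity)]
      apply mul_le_mul_of_nonneg_left e3 (by positivity)
    have hD1 : t * Nr * ((R : ℝ) ^ (m + k' + 3) / 2) * (1 / 4 * Acst (m + k' + 1) b) /
        (Nat.factorial (m + k' + 2) : ℝ) ≤ vol {x | nK x ≤ 1} - vol {x | nL x ≤ 1} := by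
      refine le_trans ?_ hD
      apply div_le_div_of_nonneg_right _ (by positivity)
      apply mul_le_mul_of_nonneg_right _ (by positivity)
      exact mul_le_mul_of_nonneg_left hs1 (by positivity)
    -- comparison of constants
    have hsn : 0 < √(n : ℝ) := Real.sqrt_pos.mpr hn0
    have hsnn : √(n : ℝ) * √(n : ℝ) = n := Real.mul_self_sqrt hn0.le
    have hb0' : (0 : ℝ) < b := by
      rw [hbd]; push_cast; positivity
    have hsb : 0 < √(b : ℝ) := Real.sqrt_pos.mpr hb0'
    have hsq : 4 * √(b : ℝ) ≤ 12 * R * √(n : ℝ) * (34 / 36) := by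
      have h1 : √(b : ℝ) ≤ 17 / 6 * R * √(n : ℝ) := by
        rw [Real.sqrt_le_left (by positivity)]
        have h2 : (17 / 6 * R * √(n : ℝ)) ^ 2 = 289 / 36 * R ^ 2 * n := by
          rw [mul_pow, mul_pow, sq (√(n : ℝ)), hsnn]; norm_num
        rw [h2, hbd]
        push_cast
        have : 0 < (R : ℝ) ^ 2 * n := by positivity
        nlinarith
      nlinarith
    have hcomp := acst_iter m b (k' + 1) (by
      rw [hbd, hm]
      have := Nat.one_le_pow 2 R hR
      nlinarith)
    rw [show m + (k' + 1) + 1 = m + k' + 2 by ring, show m + (k' + 1) = m + k' + 1 by ring] at hcomp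
    obtain ⟨Q, hQ⟩ : ∃ Q : ℝ, Q = t * Nr * (R : ℝ) ^ (m + 2) * Acst m b /
      (Nat.factorial (m + 1) : ℝ) := ⟨_, rfl⟩
    have hQ0 : 0 < Q := by rw [hQ]; positivity
    have hD2 : Q / 8 * (R / (4 * √(b : ℝ))) ^ (k' + 1) ≤
        vol {x | nK x ≤ 1} - vol {x | nL x ≤ 1} := by
      refine le_trans ?_ hD1
      have h1 : t * Nr * ((R : ℝ) ^ (m + k' + 3) / 2) * (1 / 4 *
          (((m + k' + 2).factorial : ℝ) / ((m + 1).factorial : ℝ) / (4 * √(b : ℝ)) ^ (k' + 1) *
            Acst m b)) / (Nat.factorial (m + k' + 2) : ℝ) =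
          Q / 8 * (R / (4 * √(b : ℝ))) ^ (k' + 1) := by
        rw [hQ, div_pow, show m + k' + 3 = (m + 2) + (k' + 1) by ring, pow_add]
        field_simp
        ring
      rw [← h1]
      apply div_le_div_of_nonneg_right _ (by positivity)
      apply mul_le_mul_of_nonneg_left _ (by positivity)
      apply mul_le_mul_of_nonneg_left hcomp (by norm_num)
    -- volume of K
    have hKvol : vol {x | nK x ≤ 1} ≤ (36 / √(n : ℝ)) ^ n := by
      have h1 : volume {x | nK x ≤ 1} ≤ volume {x | g x ≤ 1} := by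
        apply measure_mono
        intro x hx
        have h2 : nK x ≤ 1 := hx
        have h3 := mul_nonneg hc0 (norm_nonneg x)
        show g x ≤ 1
        simp only [nK] at h2
        linarith
      have h3 : volume {x | nK x ≤ 1} ≤ ENNReal.ofReal ((36 / √(n : ℝ)) ^ n) := by
        calc volume {x | nK x ≤ 1} ≤ volume {x | g x ≤ 1} := h1
          _ ≤ ENNReal.ofReal ((2 * (N0 : ℝ)) ^ (4 * R ^ 2) * 2 ^ n) *
              volume (Metric.ball (0 : EuclideanSpace ℝ (Fin n)) 1) := gvol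
          _ ≤ ENNReal.ofReal (2 ^ n * 2 ^ n) * ENNReal.ofReal ((9 / √(n : ℝ)) ^ n) := by
              apply mul_le_mul' _ (hball n (by omega))
              apply ENNReal.ofReal_le_ofReal
              rw [← hNd]
              exact mul_le_mul_of_nonneg_right hpow (by positivity)
          _ = ENNReal.ofReal ((36 / √(n : ℝ)) ^ n) := by
              rw [← ENNReal.ofReal_mul (by positivity)]
              congr 1
              rw [← mul_pow, ← mul_pow]
              congr 1; ring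
      unfold vol
      exact ENNReal.toReal_le_of_le_ofReal (by positivity) h3
    have hDpos : 0 < vol {x | nK x ≤ 1} - vol {x | nL x ≤ 1} :=
      lt_of_lt_of_le (by positivity) hD2
    have hL0 : 0 ≤ vol {x | nL x ≤ 1} := ENNReal.toReal_nonneg
    have hK0 : 0 < vol {x | nK x ≤ 1} := by linarith
    have hkn' : 2 * ((k' + 1 : ℕ) : ℝ) ≤ n := by exact_mod_cast hkn
    have hkpos : 0 < ((k' + 1 : ℕ) : ℝ) := by positivity
    have hp0 : (1 : ℝ) / 2 ≤ ((n : ℝ) - (k' + 1 : ℕ)) / n := by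
      rw [div_le_div_iff₀ (by norm_num) hn0]
      linarith
    have hp1 : ((n : ℝ) - (k' + 1 : ℕ)) / n ≤ 1 := by
      rw [div_le_one hn0]; linarith
    have hconc := pow_concave (vol {x | nK x ≤ 1}) (vol {x | nL x ≤ 1})
      (((n : ℝ) - (k' + 1 : ℕ)) / n) hK0 hL0 (by linarith) hp1
    have hroot : (√(n : ℝ) / 36) ^ (k' + 1) ≤
        vol {x | nK x ≤ 1} ^ (((n : ℝ) - (k' + 1 : ℕ)) / n - 1) := by
      have e1 : ((n : ℝ) - (k' + 1 : ℕ)) / n - 1 = -(((k' + 1 : ℕ) : ℝ) / n) := by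
        field_simp; ring
      rw [e1, Real.rpow_neg hK0.le]
      have h1 : vol {x | nK x ≤ 1} ^ (((k' + 1 : ℕ) : ℝ) / n) ≤ (36 / √(n : ℝ)) ^ (k' + 1) := by
        calc vol {x | nK x ≤ 1} ^ (((k' + 1 : ℕ) : ℝ) / n)
            ≤ ((36 / √(n : ℝ)) ^ n) ^ (((k' + 1 : ℕ) : ℝ) / n) :=
              Real.rpow_le_rpow hK0.le hKvol (by positivity)
          _ = (36 / √(n : ℝ)) ^ (((k' + 1 : ℕ) : ℝ)) := by
              rw [← Real.rpow_natCast (36 / √(n : ℝ)) n, ← Real.rpow_mul (by positivity)]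
              congr 1
              field_simp
          _ = (36 / √(n : ℝ)) ^ (k' + 1) := Real.rpow_natCast _ _
      have h2 : 0 < vol {x | nK x ≤ 1} ^ (((k' + 1 : ℕ) : ℝ) / n) := Real.rpow_pos_of_pos hK0 _
      rw [le_inv_comm₀ (by positivity) h2, ← inv_pow, inv_div]
      exact h1
    refine lt_of_lt_of_le ?_ hconc
    have hlow : (1 / 2) * (√(n : ℝ) / 36) ^ (k' + 1) *
        (Q / 8 * (R / (4 * √(b : ℝ))) ^ (k' + 1)) ≤
        ((n : ℝ) - (k' + 1 : ℕ)) / n *
          vol {x | nK x ≤ 1} ^ (((n : ℝ) - (k' + 1 : ℕ)) / n - 1) *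
          (vol {x | nK x ≤ 1} - vol {x | nL x ≤ 1}) := by
      apply mul_le_mul (mul_le_mul hp0 hroot (by positivity) (by linarith)) hD2 (by positivity)
      have : 0 ≤ vol {x | nK x ≤ 1} ^ (((n : ℝ) - (k' + 1 : ℕ)) / n - 1) :=
        Real.rpow_nonneg hK0.le _
      have h2 : 0 ≤ ((n : ℝ) - (k' + 1 : ℕ)) / n := by linarith
      positivity
    refine lt_of_lt_of_le ?_ hlow
    have e5 : (1 / 2) * (√(n : ℝ) / 36) ^ (k' + 1) *
        (Q / 8 * (R / (4 * √(b : ℝ))) ^ (k' + 1)) =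
        Q / 16 * (√(n : ℝ) / 36 * (R / (4 * √(b : ℝ)))) ^ (k' + 1) := by
      rw [mul_pow]; ring
    have e7 : 1 / 408 ≤ √(n : ℝ) / 36 * (R / (4 * √(b : ℝ))) := by
      rw [div_mul_div_comm, div_le_div_iff₀ (by norm_num) (by positivity)]
      have : 0 < √(n : ℝ) * R := by positivity
      nlinarith
    have e8 : (1 / 408 : ℝ) ^ (k' + 1) ≤ (√(n : ℝ) / 36 * (R / (4 * √(b : ℝ)))) ^ (k' + 1) :=
      pow_le_pow_left₀ (by norm_num) e7 _
    have e6 : C * (t * (R : ℝ) ^ (m + 2) * Acst m b * (ε * Nr) /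
        (Nat.factorial (m + 1) : ℝ)) = C * ε * Q := by
      rw [hQ]; field_simp
    rw [e5, e6]
    have e9 : C * ε < 1 / 16 * (1 / 408 : ℝ) ^ (k' + 1) := by
      rw [one_div_pow, div_mul_div_comm, one_mul, lt_div_iff₀ (by positivity)]
      calc C * ε * (16 * 408 ^ (k' + 1)) = 16 * 408 ^ (k' + 1) * ε * C := by ring
        _ < 1 := hCε
    calc C * ε * Q < 1 / 16 * (1 / 408 : ℝ) ^ (k' + 1) * Q := mul_lt_mul_of_pos_right e9 hQ0
      _ = Q / 16 * (1 / 408 : ℝ) ^ (k' + 1) := by ring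
      _ ≤ _ := mul_le_mul_of_nonneg_left e8 (by positivity)

end Pool.Agent.Y836.VD
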