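import Pool.Agent.Results.MP_ad3614_gt.DifferenceUnbounded

/-!
# Project VD (helper836): the volume difference inequality for sections, growth of the constants

Lower bound `γ_{n,k} ≥ c √(n/k) / log n` for all `k ≤ n / (18 log n)`; statements.
-/

set_option autoImplicit false
open MeasureTheory Set

namespace Pool.Agent.Y836.VD

open Pool.Agent.Results.MP_ad3614_gt.DifferenceUnbounded

noncomputable section

/-- **BALL**: volume of the unit ball. -/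
def S_BALL : Prop := ∀ n : ℕ, 1 ≤ n →
  volume (Metric.ball (0 : EuclideanSpace ℝ (Fin n)) 1) ≤ ENNReal.ofReal ((9 / √(n : ℝ)) ^ n)

/-- **SLABK**: the part of the unit ball near a subspace of codimension `k`. -/
def S_SLABK : Prop := ∀ (n k : ℕ) (ν : Fin k → EuclideanSpace ℝ (Fin n)) (s : ℝ),
  1 ≤ k → k ≤ n → Orthonormal ℝ ν → 0 ≤ s →
  volume {x : EuclideanSpace ℝ (Fin n) | ‖x‖ < 1 ∧ ∑ j, (inner ℝ x (ν j)) ^ 2 ≤ s ^ 2} ≤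
    ENNReal.ofReal ((9 * s * √((n : ℝ) / k)) ^ k) *
      volume (Metric.ball (0 : EuclideanSpace ℝ (Fin n)) 1)

/-- **FRAMEK**: well distributed unit vectors. -/
def S_FRAMEK : Prop := ∀ (n k R : ℕ), 3 ≤ n → 1 ≤ k → k ≤ n → 1 ≤ R → R ^ 2 ≤ n →
  ∃ θ : Fin (n ^ (k + 1)) → EuclideanSpace ℝ (Fin n), (∀ i, ‖θ i‖ = 1) ∧
    ∀ ν : Fin k → EuclideanSpace ℝ (Fin n), Orthonormal ℝ ν →
      ∑ i, (1 - ∑ j, (inner ℝ (θ i) (ν j)) ^ 2) ^ (8 * n * R ^ 2) ≤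
        7 * (9 * √(Real.log n) / R) ^ k * (n : ℝ) ^ (k + 1)

/-- `(∗)` with `γ ^ k = C` fails with room to spare. -/
def FailsK (n k : ℕ) (C : ℝ) : Prop :=
  ∃ K L : Set (EuclideanSpace ℝ (Fin n)), IsSymmBody K ∧ IsSymmBody L ∧ L ⊆ K ∧ ∃ B : ℝ,
    (∀ s ∈ secDiffs (n - k) K L, s ≤ B) ∧
    C * B < vol K ^ (((n : ℝ) - k) / n) - vol L ^ (((n : ℝ) - k) / n)

/-- **KEYK**: the bodies. -/
def S_KEYK : Prop := ∀ (n k R N : ℕ) (ε C : ℝ) (θ : Fin N → EuclideanSpace ℝ (Fin n)),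
  1 ≤ k → 2 * k ≤ n → 1 ≤ R → 1 ≤ N → 0 < ε → 0 < C → (∀ i, ‖θ i‖ = 1) →
  (∀ ν : Fin k → EuclideanSpace ℝ (Fin n), Orthonormal ℝ ν →
    ∑ i, (1 - ∑ j, (inner ℝ (θ i) (ν j)) ^ 2) ^ (8 * n * R ^ 2) ≤ ε * N) →
  (2 * (N : ℝ)) ^ (4 * R ^ 2) ≤ 2 ^ n → 16 * 408 ^ k * ε * C < 1 → FailsK n k C

/-- **MAIN**: the lower bound for the constants. -/
def S_MAIN : Prop := ∀ n k : ℕ, 3 ≤ n → 1 ≤ k → 18 * k * Real.log n ≤ n →
  ENNReal.ofReal (√((n : ℝ) / k) / (4000000 * Real.log n)) ≤ gammaConst n k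

end

end Pool.Agent.Y836.VD
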